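import Pool.Agent.MP_b07c92_gt.Scattered

/-!
If `K` is a scattered compact space in which the `G_δ`-closure of every set of size at most
`ℵ₁` has size at most `ℵ₁`, then every compact continuous image of `C_p(K)` is metrizable.
-/

namespace Pool.Agent.Results.MP_b07c92_gt.GdeltaSmall

open Set Topology Cardinal Pool.Agent.MP_b07c92_gt

universe u v

theorem result {K : Type u} [TopologicalSpace K] [CompactSpace K] [T2Space K]
    (hscattered : ∀ A : Set K, A.Nonempty → ∃ x ∈ A, ∃ V : Set K, IsOpen V ∧ V ∩ A = {x})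
    (hsmall : ∀ S : Set K, #S ≤ ℵ₁ →
      #{z : K | ∀ G : Set K, IsGδ G → z ∈ G → (G ∩ S).Nonempty} ≤ ℵ₁)
    {Y : Type v} [TopologicalSpace Y] [CompactSpace Y] [T2Space Y]
    (φ : {f : K → ℝ // Continuous f} → Y) (hφ : Continuous φ) (hsurj : Function.Surjective φ) :
    TopologicalSpace.MetrizableSpace Y := by
  classical
  by_contra hY
  obtain ⟨𝒮, h𝒮, hreal⟩ := exists_independent φ hφ hsurj hY
  let Ω := (ℵ₁ : Cardinal.{u}).ord.ToType
  have hΩc : #Ω = ℵ₁ := by simp [Ω]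
  have hΩu : Uncountable Ω := by
    rw [← aleph0_lt_mk_iff, hΩc]; exact aleph0_lt_aleph_one
  have hΩ : ∀ δ : Ω, (Iio δ).Countable := fun δ => by
    rw [← le_aleph0_iff_set_countable, ← lt_aleph_one_iff]
    exact (mk_Iio_lt δ (by simp [Ω])).trans_eq hΩc
  have hΩΩ : #(Ω × Ω) = ℵ₁ := by simp [hΩc]
  obtain ⟨ι⟩ : Nonempty (Ω × Ω ↪ 𝒮) := by
    rw [← lift_mk_le', hΩΩ, lift_aleph, Ordinal.lift_one, aleph_one_le_iff, aleph0_lt_lift]
    rwa [← le_aleph0_iff_set_countable, not_le] at h𝒮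
  let ψ : Ω × Ω → Cp K → ℝ := fun p f => (ι p).1.1 (φ f)
  choose A hAc hA using fun p : Ω × Ω =>
    exists_countable_control (ψ p) ((ι p).1.1.continuous.comp hφ)
  let S : Set K := ⋃ p, A p
  have hS : #S ≤ ℵ₁ := by
    refine (mk_iUnion_le _).trans ?_
    rw [hΩΩ]
    refine (mul_le_mul_right (ciSup_le' fun p =>
      ((le_aleph0_iff_set_countable.2 (hAc p)).trans aleph0_lt_aleph_one.le)) _).trans ?_
    simp
  set Z : Set K := {z : K | ∀ G : Set K, IsGδ G → z ∈ G → (G ∩ S).Nonempty} with hZdef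
  obtain ⟨e⟩ : Nonempty (Z ↪ Ω) := by
    rw [← le_def, hΩc]; exact hsmall S hS
  have : Nonempty Ω := inferInstance
  let j : K → Ω := fun x => if h : x ∈ Z then e ⟨x, h⟩ else Classical.arbitrary Ω
  have hj : InjOn j Z := by
    intro x hx y hy hxy
    simp only [j, dif_pos hx, dif_pos hy] at hxy
    exact congrArg Subtype.val (e.injective hxy)
  obtain ⟨T, ρ, hTc, hρ, hf⟩ := exists_retractions hscattered hΩ S Z j hj fun z hz => by
    simp only [hZdef, mem_ofPred_eq, not_forall] at hz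
    obtain ⟨G, hG, hzG, hn⟩ := hz
    exact ⟨G, hG, hzG, disjoint_iff_inter_eq_empty.2 (not_nonempty_iff_eq_empty.1 hn)⟩
  let good : Ω → Box K → Ω → Prop := fun δ N ξ =>
    ∀ g : Cp K, (∀ s ∈ S, g.1 (ρ δ s) = g.1 s) → InBox N g.1 → 0 < ψ (δ, ξ) g
  have hξ : ∀ δ, ∃ ξ, ∀ N : Box K, supp N ⊆ T δ → good δ N ξ → ∃ ξ' ≠ ξ, good δ N ξ' := by
    intro δ
    have hc : (⋃ N ∈ {N : Box K | supp N ⊆ T δ},
        {ξ | good δ N ξ ∧ ∀ ξ' ≠ ξ, ¬ good δ N ξ'}).Countable :=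
      (countable_boxes (hTc δ)).biUnion fun N _ => Set.Subsingleton.countable
        fun a ha b hb => by
          by_contra hab
          exact hb.2 a hab ha.1
    obtain ⟨ξ, hξ⟩ : ∃ ξ, ξ ∉ ⋃ N ∈ {N : Box K | supp N ⊆ T δ},
        {ξ | good δ N ξ ∧ ∀ ξ' ≠ ξ, ¬ good δ N ξ'} := by
      by_contra hn
      push Not at hn
      exact not_countable_univ (hc.mono fun ξ _ => hn ξ)
    refine ⟨ξ, fun N hN hg => ?_⟩
    by_contra hn
    push Not at hn
    exact hξ (mem_iUnion₂.2 ⟨N, hN, hg, hn⟩)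
  choose ξ hξ using hξ
  obtain ⟨f, hfs⟩ := hreal fun q => ∃ δ, q = (ι (δ, ξ δ)).1
  obtain ⟨δ, hδ⟩ := hf f
  obtain ⟨W, hWA, hWf, hW⟩ := hA (δ, ξ δ) f ((hfs _ (ι (δ, ξ δ)).2).1 ⟨δ, rfl⟩)
  have hWS : ∀ t ∈ W, t.1 ∈ S := fun t ht => mem_iUnion.2 ⟨_, hWA ⟨t, ht, rfl⟩⟩
  let N : Box K := W.image fun t => (ρ δ t.1, t.2)
  have hN : ∀ g : Cp K, (∀ s ∈ S, g.1 (ρ δ s) = g.1 s) → (InBox N g.1 ↔ InBox W g.1) := by
    intro g hg
    constructor
    · intro h t ht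
      have := h _ (Finset.mem_image_of_mem _ ht)
      rwa [hg _ (hWS t ht)] at this
    · intro h t ht
      obtain ⟨t', ht', rfl⟩ := Finset.mem_image.1 ht
      have := h t' ht'
      rwa [← hg _ (hWS t' ht')] at this
  obtain ⟨ξ', hne, hgood⟩ := hξ δ N (by
      rintro _ ⟨t, ht, rfl⟩
      obtain ⟨t', -, rfl⟩ := Finset.mem_image.1 ht
      exact hρ δ _)
    fun g hg hgN => hW g ((hN g hg).1 hgN)
  have h1 := hgood f hδ ((hN f hδ).2 hWf)
  have h2 := (hfs _ (ι (δ, ξ')).2).2 (by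
    rintro ⟨δ', h⟩
    have h3 := ι.injective (Subtype.ext h)
    obtain ⟨rfl, h4⟩ := Prod.mk.inj h3
    exact hne h4)
  exact absurd h1 (not_lt.2 h2)

end Pool.Agent.Results.MP_b07c92_gt.GdeltaSmall
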