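import Mathlib
import Pool.Agent.MP_b07c92_gt.h92.Main

/-! Q2 is independent of ZFC: it holds in one transitive model of ZFC and fails in another. -/

namespace Pool.Agent.Results.MP_b07c92_gt.LeftSepIndependent

open Pool.Agent.ZF92 Pool.Agent.MP_b07c92_gt.Indep

theorem result :
    (∃ M : Set ZFSet.{0}, ZFC M ∧ ∀ K ∈ M, ∀ T ∈ M, ∀ Y ∈ M, ∀ S ∈ M,
      CompactSp M K T → LeftSeparated M K T → CompactSp M Y S → ImageOfCp M K T Y S →
        Metrizable M Y S) ∧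
    (∃ M : Set ZFSet.{0}, ZFC M ∧ ∃ K ∈ M, ∃ T ∈ M, ∃ Y ∈ M, ∃ S ∈ M,
      CompactSp M K T ∧ LeftSeparated M K T ∧ CompactSp M Y S ∧ ImageOfCp M K T Y S ∧
        ¬ Metrizable M Y S) := by
  refine ⟨left_model, ?_⟩
  obtain ⟨M, hM, K, hK, T, hT, Y, hY, S, hS, h1, h2, -, h⟩ := neg_model
  exact ⟨M, hM, K, hK, T, hT, Y, hY, S, hS, h1, h2, h⟩

end Pool.Agent.Results.MP_b07c92_gt.LeftSepIndependent
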