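import Mathlib
import Pool.Agent.MP_b07c92_gt.h92.Main
import Pool.Agent.MP_b07c92_gt.h92.Force3

/-! Q1 is independent of ZFC: it holds in one transitive model of ZFC and fails in another. -/

namespace Pool.Agent.Results.MP_b07c92_gt.ScatteredIndependent

open Pool.Agent.ZF92 Pool.Agent.MP_b07c92_gt.Indep

theorem result :
    (∃ M : Set ZFSet.{0}, ZFC M ∧ ∀ K ∈ M, ∀ T ∈ M, ∀ Y ∈ M, ∀ S ∈ M,
      CompactSp M K T → Scattered M K T → CompactSp M Y S → ImageOfCp M K T Y S →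
        Metrizable M Y S) ∧
    (∃ M : Set ZFSet.{0}, ZFC M ∧ ∃ K ∈ M, ∃ T ∈ M, ∃ Y ∈ M, ∃ S ∈ M,
      CompactSp M K T ∧ Scattered M K T ∧ CompactSp M Y S ∧ ImageOfCp M K T Y S ∧
        ¬ Metrizable M Y S) := by
  constructor
  · obtain ⟨M, hM, I, L, _, _, _, _, r, b, Z, hb, hZ⟩ := exists_book_qp
    refine ⟨M, hM.out, fun K hK T hT Y hY S hS h1 h2 h3 h4 => ?_⟩
    obtain ⟨_, _, rT⟩ := exists_top (K := ⟨K, hK⟩) hT h1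
    obtain ⟨_, _, rS⟩ := exists_top (K := ⟨Y, hY⟩) hS h3
    have e1 : K = un M (El M ⟨K, hK⟩) := (un_el ⟨K, hK⟩).symm
    have e2 : Y = un M (El M ⟨Y, hY⟩) := (un_el ⟨Y, hY⟩).symm
    rw [e1] at h1 h2
    rw [e2] at h3 ⊢
    rw [e1, e2] at h4
    obtain ⟨_, g1, g2⟩ := rT.of_compact h1
    obtain ⟨_, g3, g4⟩ := rS.of_compact h3
    obtain ⟨Φ, g7, g8, g9⟩ := (rT.image_iff rS).1 h4
    refine rS.metr_iff.2 (metrizable_scat hb hZ g2 g1 (fun A ⟨x, hx⟩ => ?_) g4 g3 g7 g8 g9)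
    obtain ⟨z, hz, U, hU, e⟩ := h2 _ (cd_mem A) (cd_sub_un A)
      fun e => ZFSet.notMem_empty _ (e ▸ cd_mem_cd_ps.2 hx)
    obtain ⟨y, hy, rfl⟩ := mem_cd_ps.1 hz
    obtain ⟨V, hV, rfl⟩ := (rT U).1 hU
    refine ⟨y, hy, V, hV, cd_mem_cd_ps.1 (ZFSet.mem_inter.1 (e ▸ ZFSet.mem_singleton.2 rfl)).1,
      fun w h5 h6 => cd_inj.1 (ZFSet.mem_singleton.1 (e ▸ ZFSet.mem_inter.2
        ⟨cd_mem_cd_ps.2 h5, cd_mem_cd_ps.2 h6⟩))⟩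
  · obtain ⟨M, hM, K, hK, T, hT, Y, hY, S, hS, h1, -, h⟩ := neg_model
    exact ⟨M, hM, K, hK, T, hT, Y, hY, S, hS, h1, h⟩

end Pool.Agent.Results.MP_b07c92_gt.ScatteredIndependent
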